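import Pool.Agent.H18.VZ.Targets
import Pool.Agent.H18.HIT.SEP

/-!
# Non-fibered rational self-maps of arbitrary varieties: a discriminant
-/

open MvPolynomial
open Pool.Agent.H12.ZD (pmap)
open Pool.Agent.H18.HIT Pool.Agent.H18.HX Pool.Agent.H18.VZ

namespace Pool.Agent.H11.VZ

theorem fse_pd {N : ℕ} {k : Type} [CommRing k] (q : Po (N + 1) k) :
    finSuccEquiv k N (pderiv 0 q) = Polynomial.derivative (finSuccEquiv k N q) := by
  induction q using MvPolynomial.induction_on with
  | C c =>
    rw [pderiv_C, map_zero, finSuccEquiv_apply, eval₂Hom_C, RingHom.comp_apply,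
      Polynomial.derivative_C]
  | add p q hp hq => rw [map_add, map_add, hp, hq, map_add, Polynomial.derivative_add]
  | mul_X p i hp =>
    rw [pderiv_mul, map_add, map_mul, map_mul, hp, map_mul, Polynomial.derivative_mul]
    congr 2
    refine Fin.cases ?_ (fun j => ?_) i
    · rw [pderiv_X_self, map_one, finSuccEquiv_X_zero, Polynomial.derivative_X]
    · rw [pderiv_X_of_ne (Fin.succ_ne_zero j), map_zero, finSuccEquiv_X_succ,
        Polynomial.derivative_C]

theorem fse_up {N : ℕ} {k : Type} [Field k] (q : Po N k) :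
    finSuccEquiv k N (up q) = Polynomial.C q := by
  unfold up
  induction q using MvPolynomial.induction_on with
  | C c =>
    rw [rename_C, finSuccEquiv_apply, eval₂Hom_C, RingHom.comp_apply]
  | add p q hp hq => rw [map_add, map_add, hp, hq, Polynomial.C_add]
  | mul_X p i hp =>
    rw [map_mul, map_mul, hp, rename_X, finSuccEquiv_X_succ, Polynomial.C_mul]

theorem pf_SPX : T_SPX := by
  intro N r k _ _ P hP
  have hirr : Irreducible (finSuccEquiv k N P) :=
    (MulEquiv.irreducible_iff (finSuccEquiv k N)).2 hP.irr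
  obtain ⟨U, V, ρ, hρ, h⟩ := Pool.Agent.H18.HIT.pf_SEP (Po N k) (finSuccEquiv k N P) hP.mon hirr
  refine ⟨ρ, (finSuccEquiv k N).symm U, (finSuccEquiv k N).symm V, hρ, ?_⟩
  apply (finSuccEquiv k N).injective
  rw [fse_up, map_add, map_mul, map_mul, AlgEquiv.apply_symm_apply, AlgEquiv.apply_symm_apply,
    fse_pd]
  exact h.symm

end Pool.Agent.H11.VZ
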