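import Pool.Agent.H11.VZ.TRDb
import Pool.Agent.H11.VZ.SPX

/-!
# Non-fibered rational self-maps of arbitrary varieties: the conjugates of the generic point of `H`
-/

set_option autoImplicit false

open MvPolynomial
open Pool.Agent.H12.ZD (pmap)
open Pool.Agent.H18.HIT Pool.Agent.H18.HX Pool.Agent.H18.VZ

namespace Pool.Agent.H11.VZ

section

variable {N : ℕ} {k : Type} [Field k]

theorem fse_dvd (P : Po (N + 1) k) (r : ℕ) (hP : Hyp P r) (c : Po N k) (h : P ∣ up c) : c = 0 := by
  have hmon : (finSuccEquiv k N P).Monic := hP.mon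
  have hpos : 0 < (finSuccEquiv k N P).natDegree := by
    rw [Nat.pos_iff_ne_zero]
    intro h0
    have h2 := hmon.natDegree_eq_zero.mp h0
    apply hP.irr.not_isUnit
    have h3 : P = 1 := by
      apply (finSuccEquiv k N).injective
      rw [h2, map_one]
    rw [h3]
    exact isUnit_one
  have h4 : finSuccEquiv k N P ∣ Polynomial.C c := by
    rw [← fse_up]
    exact map_dvd (finSuccEquiv k N) h
  by_contra hc
  have h5 := Polynomial.natDegree_le_of_dvd h4 (by rwa [Ne, Polynomial.C_eq_zero])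
  rw [Polynomial.natDegree_C] at h5
  omega

theorem fse_eval {R : Type} [CommRing R] (θ : Po (N + 1) k →+* R) (P : Po (N + 1) k) :
    (finSuccEquiv k N P).eval₂ (θ.comp (rename Fin.succ : Po N k →ₐ[k] Po (N + 1) k).toRingHom)
      (θ (X 0)) = θ P := by
  induction P using MvPolynomial.induction_on with
  | C c =>
    rw [finSuccEquiv_apply, eval₂Hom_C, RingHom.comp_apply, Polynomial.eval₂_C]
    rw [RingHom.comp_apply]
    congr 1
    exact rename_C _ _
  | add p q hp hq => rw [map_add, Polynomial.eval₂_add, hp, hq, map_add]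
  | mul_X p l hp =>
    rw [map_mul, Polynomial.eval₂_mul, hp, map_mul]
    congr 1
    refine Fin.cases ?_ (fun j => ?_) l
    · rw [finSuccEquiv_X_zero, Polynomial.eval₂_X]
    · rw [finSuccEquiv_X_succ, Polynomial.eval₂_C, RingHom.comp_apply]
      congr 1
      exact rename_X _ _

variable (i : Fin N)

theorem setup {B : Type} [CommRing B] [Algebra (Sv i k) B] (π : Po (N + 1) k →+* B)
    (hπ : Function.Surjective π) (hbase : ∀ c, algebraMap (Sv i k) B c = π (jv i k c))
    (P : Po (N + 1) k) (r : ℕ) (hP : Hyp P r) (hPπ : π P = 0) (h₁ : Polynomial (Sv i k))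
    (hm : h₁.Monic) (hroot : π (up ((Ev i k).symm h₁)) = 0) :
    Algebra.adjoin (Sv i k) {π (X 0), π (X i.succ)} = ⊤ ∧ Module.Finite (Sv i k) B ∧
      Polynomial.aeval (π (X i.succ)) h₁ = 0 := by
  have hbase' : algebraMap (Sv i k) B = π.comp (jv i k : Sv i k →+* Po (N + 1) k) := by
    ext c
    · exact hbase _
    · exact hbase _
  have hup : ∀ q : Polynomial (Sv i k), Polynomial.aeval (π (X i.succ)) q =
      π (up ((Ev i k).symm q)) := by
    intro q
    rw [up_Ev' i π, AlgEquiv.apply_symm_apply, Polynomial.aeval_def, hbase']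
  have hy : Polynomial.aeval (π (X i.succ)) h₁ = 0 := by rw [hup, hroot]
  have hyint : IsIntegral (Sv i k) (π (X i.succ)) := ⟨h₁, hm, hy⟩
  have hupint : ∀ c : Po N k, IsIntegral (Sv i k) (π (up c)) := by
    intro c
    have h1 := hup (Ev i k c)
    rw [AlgEquiv.symm_apply_apply] at h1
    rw [← h1]
    have h2 : Polynomial.aeval (π (X i.succ)) (Ev i k c) ∈ integralClosure (Sv i k) B := by
      have h3 := Polynomial.aeval_mem_adjoin_singleton (Sv i k) (π (X i.succ)) (p := Ev i k c)
      refine (Algebra.adjoin_le ?_) h3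
      intro z hz
      rw [Set.mem_singleton_iff] at hz
      rw [hz]
      exact hyint
    exact h2
  have hxint : IsIntegral (Sv i k) (π (X 0)) := by
    let A' := integralClosure (Sv i k) B
    let φ : Po N k →+* A' :=
      (π.comp (rename Fin.succ : Po N k →ₐ[k] Po (N + 1) k).toRingHom).codRestrict A'
        (fun c => hupint c)
    have h1 : IsIntegral A' (π (X 0)) := by
      refine ⟨(finSuccEquiv k N P).map φ, hP.mon.map φ, ?_⟩
      rw [Polynomial.eval₂_map]
      have h2 : (algebraMap A' B).comp φ =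
          π.comp (rename Fin.succ : Po N k →ₐ[k] Po (N + 1) k).toRingHom := rfl
      rw [h2, fse_eval, hPπ]
    exact isIntegral_trans _ h1
  have hadj : Algebra.adjoin (Sv i k) {π (X 0), π (X i.succ)} = ⊤ := by
    rw [eq_top_iff]
    rintro b -
    obtain ⟨c, rfl⟩ := hπ b
    induction c using MvPolynomial.induction_on with
    | C c =>
      have h1 : π (C c) = algebraMap (Sv i k) B (C c) := by
        rw [hbase, jv, rename_C]
      rw [h1]
      exact Subalgebra.algebraMap_mem _ _
    | add p q hp hq =>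
      rw [map_add]
      exact Subalgebra.add_mem _ hp hq
    | mul_X p l hp =>
      rw [map_mul]
      refine Subalgebra.mul_mem _ hp ?_
      refine Fin.cases ?_ (fun j => ?_) l
      · exact Algebra.subset_adjoin (Set.mem_insert _ _)
      · by_cases hj : j = i
        · rw [hj]
          exact Algebra.subset_adjoin (Set.mem_insert_of_mem _ rfl)
        · have h1 : π (X j.succ) = algebraMap (Sv i k) B (X ⟨j, hj⟩) := by
            rw [hbase, jv, rename_X]
          rw [h1]
          exact Subalgebra.algebraMap_mem _ _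
  refine ⟨hadj, ?_, hy⟩
  have hfg := fg_adjoin_of_finite (R := Sv i k) (s := {π (X 0), π (X i.succ)})
    (Set.toFinite _) (by
      intro z hz
      rcases hz with hz | hz
      · rw [hz]; exact hxint
      · rw [hz]; exact hyint)
  rw [hadj] at hfg
  exact ⟨hfg⟩

/-- the coordinate ring as an algebra -/
@[reducible] noncomputable def algB (H : Ideal (Po (N + 1) k)) :
    Algebra (Sv i k) (Po (N + 1) k ⧸ H) :=
  ((Ideal.Quotient.mk H).comp (jv i k : Sv i k →+* Po (N + 1) k)).toAlgebra

attribute [local instance] algB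

theorem algB_apply (H : Ideal (Po (N + 1) k)) (c : Sv i k) :
    algebraMap (Sv i k) (Po (N + 1) k ⧸ H) c = Ideal.Quotient.mk H (jv i k c) := rfl

theorem trd_of (P : Po (N + 1) k) (H : Ideal (Po (N + 1) k)) (h : Po N k) (s : k)
    (h₁ χS : Polynomial (Sv i k)) (US : ℕ → Polynomial (Sv i k))
    (hEh : Ev i k h = Polynomial.C (C s) * h₁) (hs : s ≠ 0) {κ : Type} [Field κ] [Algebra k κ]
    (ψ : Po (N + 1) k →ₐ[k] PowerSeries κ) {Ω : Type} [Field Ω] (ι : PowerSeries κ →+* Ω)
    (𝒪 : ValuationSubring Ω) (hDom : Dom ι 𝒪) (g : Sv i k →+* 𝒪)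
    (hg : ∀ c, (g c : Ω) = ι (ψ (jv i k c))) (δ : ℕ)
    (es : Fin δ → (Po (N + 1) k ⧸ H →+* 𝒪)) (Rt : Finset 𝒪)
    (hC : Cj (Ideal.Quotient.mk H (X 0)) (Ideal.Quotient.mk H (X i.succ)) h₁ χS US 𝒪 g δ es Rt) :
    Trd P H h i ((Ev i k).symm χS) (fun j => (Ev i k).symm (US j)) ψ ι 𝒪 δ
      (fun a => (es a (Ideal.Quotient.mk H (X i.succ)) : Ω))
      (fun a => (es a (Ideal.Quotient.mk H (X 0)) : Ω))
      (Rt.map ⟨Subtype.val, Subtype.val_injective⟩) s := by
  classical
  let θ : Po (N + 1) k →+* 𝒪 :=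
    (ι.comp (ψ : Po (N + 1) k →+* PowerSeries κ)).codRestrict 𝒪 (fun c => hDom.mem _)
  have hθ : ∀ c, (θ c : Ω) = ι (ψ c) := fun c => rfl
  have hgθ : θ.comp (jv i k : Sv i k →+* Po (N + 1) k) = g := by
    refine RingHom.ext (fun c => Subtype.ext ?_)
    rw [hg]
    rfl
  have heval : ∀ p : Po N k, θ (up p) = ((Ev i k p).map g).eval (θ (X i.succ)) := by
    intro p
    rw [up_Ev' i θ, hgθ, Polynomial.eval_map]
  have hprod : ∀ z : 𝒪, ∀ (A : Finset (Fin δ)),
      ((∏ a ∈ A, (z - es a (Ideal.Quotient.mk H (X i.succ))) : 𝒪) : Ω) =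
        ∏ a ∈ A, ((z : Ω) - (es a (Ideal.Quotient.mk H (X i.succ)) : Ω)) := by
    intro z A
    exact map_prod 𝒪.subtype _ _
  have hd : ∀ j : ℕ, ι (ψ (up ((pderiv i)^[j] h))) = ι (algebraMap k (PowerSeries κ) s) *
    (Polynomial.derivative^[j] (∏ β ∈ Rt.map ⟨Subtype.val, Subtype.val_injective⟩,
      (Polynomial.X - Polynomial.C β))).eval (ι (ψ (X i.succ))) := by
    intro j
    have h1 := heval ((pderiv i)^[j] h)
    rw [Ev_pderiv_iter, hEh, Polynomial.iterate_derivative_C_mul, Polynomial.map_mul,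
      Polynomial.map_C, ← Polynomial.iterate_derivative_map, hC.rt, Polynomial.eval_mul,
      Polynomial.eval_C] at h1
    have h2 := congrArg (fun z : 𝒪 => (z : Ω)) h1
    simp only [MulMemClass.coe_mul] at h2
    rw [hθ, hg] at h2
    rw [h2]
    have h3 : ψ (jv i k (C s)) = algebraMap k (PowerSeries κ) s := by
      rw [jv, rename_C]
      exact ψ.commutes s
    rw [h3]
    congr 1
    have h4 : (((Polynomial.derivative^[j] (∏ β ∈ Rt, (Polynomial.X - Polynomial.C β))).eval
        (θ (X i.succ)) : 𝒪) : Ω) =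
        ((Polynomial.derivative^[j] (∏ β ∈ Rt, (Polynomial.X - Polynomial.C β))).map
          𝒪.subtype).eval (ι (ψ (X i.succ))) := by
      rw [Polynomial.eval_map]
      exact Polynomial.hom_eval₂ _ (RingHom.id 𝒪) 𝒪.subtype (θ (X i.succ))
    rw [h4, ← Polynomial.iterate_derivative_map, Polynomial.map_prod, Finset.prod_map]
    congr 2
    refine Finset.prod_congr rfl (fun β _ => ?_)
    rw [Polynomial.map_sub, Polynomial.map_X, Polynomial.map_C]
    rfl
  have hval : ∀ z : 𝒪, IsLocalRing.residue 𝒪 z = 0 ↔ 𝒪.valuation (z : Ω) < 1 := by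
    intro z
    rw [IsLocalRing.residue_eq_zero_iff, ValuationSubring.valuation_lt_one_iff]
  refine ⟨?_, ?_, fun a => (es a _).2, fun a => (es a _).2, ?_, hs, ?_, hd, ?_, ?_, ?_⟩
  · have h1 := heval ((Ev i k).symm χS)
    rw [AlgEquiv.apply_symm_apply, hC.chi, Polynomial.eval_prod] at h1
    have h2 := congrArg (fun z : 𝒪 => (z : Ω)) h1
    simp only [Polynomial.eval_sub, Polynomial.eval_X, Polynomial.eval_C] at h2
    rw [hprod] at h2
    exact h2
  · intro j
    have h1 := heval ((Ev i k).symm (US j))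
    rw [AlgEquiv.apply_symm_apply, hC.trc, Polynomial.eval_finsetSum] at h1
    have h2 := congrArg (fun z : 𝒪 => (z : Ω)) h1
    simp only [Polynomial.eval_mul, Polynomial.eval_prod, Polynomial.eval_sub, Polynomial.eval_X,
      Polynomial.eval_C] at h2
    have h3 : ∀ f : Fin δ → 𝒪, ((∑ a, f a : 𝒪) : Ω) = ∑ a, (f a : Ω) :=
      fun f => map_sum 𝒪.subtype _ _
    rw [h3] at h2
    simp only [MulMemClass.coe_mul, hprod, SubmonoidClass.coe_pow] at h2
    exact h2
  · intro a c hc
    have h1 : (𝒪.subtype.comp (es a)).comp (Ideal.Quotient.mk H) =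
        (eval₂Hom (ι.comp (algebraMap k (PowerSeries κ)))
          (Fin.cons (es a (Ideal.Quotient.mk H (X 0)) : Ω)
            (fun l => if l = i then (es a (Ideal.Quotient.mk H (X i.succ)) : Ω) else
              ι (ψ (X l.succ))) : Fin (N + 1) → Ω)) := by
      apply MvPolynomial.ringHom_ext
      · intro c
        rw [eval₂Hom_C]
        have h2 : es a (Ideal.Quotient.mk H (C c)) = g (C c) := by
          rw [← hC.bas a, algB_apply, jv, rename_C]
        change ((es a (Ideal.Quotient.mk H (C c)) : 𝒪) : Ω) = _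
        rw [h2, hg, jv, rename_C]
        exact congrArg ι (ψ.commutes c)
      · intro l
        rw [eval₂Hom_X']
        refine Fin.cases ?_ (fun j => ?_) l
        · rw [Fin.cons_zero]
          rfl
        · rw [Fin.cons_succ]
          by_cases hj : j = i
          · rw [if_pos hj, hj]
            rfl
          · rw [if_neg hj]
            have h2 : es a (Ideal.Quotient.mk H (X j.succ)) = g (X ⟨j, hj⟩) := by
              rw [← hC.bas a, algB_apply, jv, rename_X]
            change ((es a (Ideal.Quotient.mk H (X j.succ)) : 𝒪) : Ω) = _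
            rw [h2, hg, jv, rename_X]
    have h2 := congrArg (fun f : Po (N + 1) k →+* Ω => f c) h1
    simp only [RingHom.comp_apply] at h2
    rw [Ideal.Quotient.eq_zero_iff_mem.2 hc, map_zero, map_zero] at h2
    exact h2.symm
  · have h1 := hd 0
    simp only [Function.iterate_zero, id] at h1
    rw [h1, Polynomial.eval_prod]
    simp only [Polynomial.eval_sub, Polynomial.eval_X, Polynomial.eval_C]
  · intro β hβ
    rw [Finset.mem_map] at hβ
    obtain ⟨z, -, rfl⟩ := hβ
    exact z.2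
  · intro a
    rw [Finset.mem_map]
    exact ⟨_, hC.rho a, rfl⟩
  · intro hH
    -- the residue of `ι s`
    have hX : IsLocalRing.residue 𝒪 (⟨ι PowerSeries.X, hDom.mem _⟩ : 𝒪) = 0 := by
      by_contra hne
      have h1 := inv_mem_of_res 𝒪 _ hne
      have h2 : ι 1 / ι PowerSeries.X ∈ 𝒪 := by
        rw [map_one, one_div]
        exact h1
      have h3 := hDom.dvd 1 PowerSeries.X PowerSeries.X_ne_zero h2
      rw [PowerSeries.X_dvd_iff] at h3
      simp at h3
    have hres : ∀ c, IsLocalRing.residue 𝒪 (θ c) = 0 ↔ c ∈ H := by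
      intro c
      rw [← hH]
      constructor
      · intro h1
        by_contra h2
        have h3 : IsUnit (ψ c) := by
          rw [PowerSeries.isUnit_iff_constantCoeff]
          exact isUnit_iff_ne_zero.2 h2
        obtain ⟨u, hu⟩ := h3
        have h4 : θ c * (⟨ι (↑u⁻¹ : PowerSeries κ), hDom.mem _⟩ : 𝒪) = 1 := by
          apply Subtype.ext
          change ι (ψ c) * ι (↑u⁻¹ : PowerSeries κ) = 1
          rw [← map_mul, ← hu, Units.mul_inv, map_one]
        have h5 := congrArg (IsLocalRing.residue 𝒪) h4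
        rw [map_mul, h1, zero_mul, map_one] at h5
        exact zero_ne_one h5
      · intro h1
        have h2 : PowerSeries.X ∣ ψ c := PowerSeries.X_dvd_iff.2 h1
        obtain ⟨c', hc'⟩ := h2
        have h3 : θ c = (⟨ι PowerSeries.X, hDom.mem _⟩ : 𝒪) * ⟨ι c', hDom.mem _⟩ := by
          apply Subtype.ext
          change ι (ψ c) = ι PowerSeries.X * ι c'
          rw [hc', map_mul]
        rw [h3, map_mul, hX, zero_mul]
    let w : Po (N + 1) k ⧸ H →+* IsLocalRing.ResidueField 𝒪 :=
      Ideal.Quotient.lift H ((IsLocalRing.residue 𝒪).comp θ) (fun c hc => (hres c).2 hc)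
    have hw : ∀ c, w (Ideal.Quotient.mk H c) = IsLocalRing.residue 𝒪 (θ c) := fun c => rfl
    have hwinj : Function.Injective w := by
      rw [injective_iff_map_eq_zero]
      intro b hb
      obtain ⟨c, rfl⟩ := Ideal.Quotient.mk_surjective b
      rw [hw, hres] at hb
      exact Ideal.Quotient.eq_zero_iff_mem.2 hb
    obtain ⟨a₀, h0, h1, h2⟩ := hC.one w hwinj (fun c => by
      rw [algB_apply, hw, ← hgθ]
      rfl)
    have hsub : ∀ (z : 𝒪) (c : Po (N + 1) k), 𝒪.valuation (ι (ψ c) - (z : Ω)) < 1 ↔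
        IsLocalRing.residue 𝒪 z = w (Ideal.Quotient.mk H c) := by
      intro z c
      have h3 := hval (θ c - z)
      rw [map_sub, sub_eq_zero] at h3
      rw [hw, eq_comm, h3]
      rfl
    refine ⟨a₀, ?_, ?_, ?_, ?_⟩
    · rw [hsub]
      exact h0 _
    · rw [hsub]
      exact h0 _
    · intro a h3 h4
      rw [hsub] at h3 h4
      exact h1 a h3 h4
    · intro β hβ h3
      rw [Finset.mem_map] at hβ
      obtain ⟨z, hz, rfl⟩ := hβ
      have h4 : 𝒪.valuation (ι (ψ (X i.succ)) - (z : Ω)) < 1 := h3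
      rw [hsub] at h4
      exact congrArg (fun z : 𝒪 => (z : Ω)) (h2 z hz h4)

end

theorem pf_TRD (hBIJ : T_BIJ) (hTRA : T_TRA) : T_TRD := by
  classical
  intro N r k _ _ _ P H h i hP hPdv hH hs
  obtain ⟨dh, hdh, hhom⟩ := hom_of_Hmi P H h hPdv hH
  obtain ⟨htop, hlead⟩ := coeff_top i h dh hhom
  generalize hsd : eval (Pi.single i 1) h = s at hs hlead
  have hCs : (C s : Sv i k) ≠ 0 := by rwa [Ne, C_eq_zero]
  have hnd : (Ev i k h).natDegree = dh := by
    apply le_antisymm
    · rw [Polynomial.natDegree_le_iff_coeff_eq_zero]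
      exact htop
    · apply Polynomial.le_natDegree_of_ne_zero
      rw [hlead]
      exact hCs
  have hlc : (Ev i k h).leadingCoeff = C s := by
    rw [Polynomial.leadingCoeff, hnd, hlead]
  obtain ⟨h₁, hh₁⟩ : ∃ h₁, h₁ = Polynomial.C (C s⁻¹ : Sv i k) * Ev i k h := ⟨_, rfl⟩
  have hCC : (C s⁻¹ : Sv i k) * C s = 1 := by
    rw [← C_mul, inv_mul_cancel₀ hs, C_1]
  have hCC' : (C s : Sv i k) * C s⁻¹ = 1 := by rw [mul_comm, hCC]
  have hm : h₁.Monic := by
    rw [Polynomial.Monic, hh₁, Polynomial.leadingCoeff_mul, Polynomial.leadingCoeff_C, hlc, hCC]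
  have hEh : Ev i k h = Polynomial.C (C s) * h₁ := by
    rw [hh₁, ← mul_assoc, ← Polynomial.C_mul, hCC', Polynomial.C_1, one_mul]
  have hu : IsUnit (Polynomial.C (C s⁻¹ : Sv i k)) := by
    refine IsUnit.map Polynomial.C ?_
    exact IsUnit.of_mul_eq_one _ hCC
  have hirrE : Irreducible (Ev i k h) := (MulEquiv.irreducible_iff (Ev i k)).2 hPdv.irr
  have hirr : Irreducible h₁ := by
    rw [hh₁, irreducible_isUnit_mul hu]
    exact hirrE
  have hprime : H.IsPrime := hPdv.prime
  let _ : Algebra (Sv i k) (Po (N + 1) k ⧸ H) := algB i H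
  have hdom : IsDomain (Po (N + 1) k ⧸ H) := Ideal.Quotient.isDomain H
  have hroot : Ideal.Quotient.mk H (up ((Ev i k).symm h₁)) = 0 := by
    rw [Ideal.Quotient.eq_zero_iff_mem, hPdv.iff, hh₁, map_mul, AlgEquiv.symm_apply_apply]
    exact dvd_mul_left _ _
  obtain ⟨hadj, hfin, hy⟩ := setup i (Ideal.Quotient.mk H) Ideal.Quotient.mk_surjective
    (fun c => rfl) P r hP (Ideal.Quotient.eq_zero_iff_mem.2 hPdv.mem) h₁ hm hroot
  have hfaith : FaithfulSMul (Sv i k) (Po (N + 1) k ⧸ H) := by
    rw [faithfulSMul_iff_algebraMap_injective, injective_iff_map_eq_zero]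
    intro c hc
    rw [algB_apply, Ideal.Quotient.eq_zero_iff_mem, jv_eq, hPdv.iff] at hc
    have h1 := map_dvd (Ev i k) hc
    rw [AlgEquiv.apply_symm_apply] at h1
    by_contra hne
    have h2 := Polynomial.natDegree_le_of_dvd h1 (by rwa [Ne, Polynomial.C_eq_zero])
    rw [Polynomial.natDegree_C, hnd] at h2
    omega
  obtain ⟨δ, χS, US, hχm, hχd, hδ, hdvd, hΩ⟩ := core hBIJ hTRA (Sv i k) (Po (N + 1) k ⧸ H)
    (Ideal.Quotient.mk H (X 0)) (Ideal.Quotient.mk H (X i.succ)) hadj h₁ hm hirr hy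
  -- homogeneity
  obtain ⟨h', hh'⟩ : ∃ h', h' = (C s⁻¹ : Po N k) * h := ⟨_, rfl⟩
  have hEh' : Ev i k h' = h₁ := by rw [hh', map_mul, Ev_C, hh₁]
  have hpr : Prime h' := by
    have h1 : Irreducible h' := by
      rw [← MulEquiv.irreducible_iff (Ev i k)]
      have h2 : (Ev i k) h' = h₁ := hEh'
      rw [h2]
      exact hirr
    exact h1.prime
  have hhom' : h'.IsHomogeneous dh := by
    have h1 := (isHomogeneous_C (Fin N) s⁻¹).mul hhom
    rw [zero_add, ← hh'] at h1
    exact h1
  have hdvd' : (Ev i k).symm χS ∣ h' ^ δ := by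
    have h1 := map_dvd (Ev i k).symm hdvd
    rw [map_pow, ← hEh', AlgEquiv.symm_apply_apply] at h1
    exact h1
  obtain ⟨j, -, hass⟩ := (dvd_prime_pow hpr δ).1 hdvd'
  obtain ⟨u, hu'⟩ := hass.symm
  obtain ⟨c, -, hc⟩ := isUnit_iff_eq_C_of_isReduced.1 u.isUnit
  have hχhom : ((Ev i k).symm χS).IsHomogeneous (dh * j) := by
    rw [← hu', hc]
    have h1 := (hhom'.pow j).mul (isHomogeneous_C (Fin N) c)
    rw [add_zero] at h1
    exact h1
  have hχ0 : (Ev i k).symm χS ≠ 0 := by
    rw [Ne, EmbeddingLike.map_eq_zero_iff]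
    exact hχm.ne_zero
  have hj : 1 ≤ j := by
    by_contra hj0
    have hj1 : j = 0 := by omega
    rw [hj1, pow_zero, one_mul] at hu'
    have h1 : IsUnit ((Ev i k).symm χS) := by
      rw [← hu']
      exact u.isUnit
    have h2 : IsUnit χS := by
      have h3 := h1.map (Ev i k)
      rw [AlgEquiv.apply_symm_apply] at h3
      exact h3
    have h3 := hχm.eq_one_of_isUnit h2
    rw [h3, Polynomial.natDegree_one] at hχd
    omega
  refine ⟨(Ev i k).symm χS, fun j => (Ev i k).symm (US j), δ, dh * j, hχ0, ?_, hχhom, ?_⟩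
  · exact Nat.one_le_iff_ne_zero.2 (Nat.mul_ne_zero (by omega) (by omega))
  intro κ _ _ ψ hArc Ω _ _ ι 𝒪 hDom
  let g : Sv i k →+* 𝒪 :=
    ((ι.comp (ψ : Po (N + 1) k →+* PowerSeries κ)).comp
      (jv i k : Sv i k →+* Po (N + 1) k)).codRestrict 𝒪 (fun c => hDom.mem _)
  have hg : ∀ c, (g c : Ω) = ι (ψ (jv i k c)) := fun c => rfl
  have hginj : Function.Injective g := by
    rw [injective_iff_map_eq_zero]
    intro c hc
    have h1 : ι (ψ (jv i k c)) = 0 := by
      rw [← hg, hc]
      rfl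
    have h2 : ψ (jv i k c) = 0 := hDom.inj (by rw [h1, map_zero])
    rw [hArc, jv_eq] at h2
    have h3 := fse_dvd P r hP _ h2
    rw [EmbeddingLike.map_eq_zero_iff, Polynomial.C_eq_zero] at h3
    exact h3
  obtain ⟨es, Rt, hC⟩ := hΩ Ω 𝒪 g hginj
  exact ⟨_, _, _, s, trd_of i P H h s h₁ χS US hEh hs ψ ι 𝒪 hDom g hg δ es Rt hC⟩

end Pool.Agent.H11.VZ
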