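import Pool.Agent.H18.VZ.Targets

/-!
# Non-fibered rational self-maps of arbitrary varieties: conjugates, the algebraic part
-/

set_option autoImplicit false

open Polynomial
open Pool.Agent.H18.HIT Pool.Agent.H18.HX Pool.Agent.H18.VZ

namespace Pool.Agent.H11.VZ

/-- the conclusion for a valuation ring -/
structure Cj {S B : Type} [CommRing S] [CommRing B] [Algebra S B] (x y : B)
    (h₁ χ : Polynomial S) (U : ℕ → Polynomial S) {Ω : Type} [Field Ω]
    (𝒪 : ValuationSubring Ω) (g : S →+* 𝒪) (δ : ℕ) (es : Fin δ → (B →+* 𝒪)) (Rt : Finset 𝒪) :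
    Prop where
  bas : ∀ a c, es a (algebraMap S B c) = g c
  chi : χ.map g = ∏ a, (X - C (es a y))
  trc : ∀ j, (U j).map g = ∑ a, C (es a x ^ j) * ∏ a' ∈ Finset.univ.erase a, (X - C (es a' y))
  rt : h₁.map g = ∏ β ∈ Rt, (X - C β)
  rho : ∀ a, es a y ∈ Rt
  one : ∀ w : B →+* IsLocalRing.ResidueField 𝒪, Function.Injective w →
    (∀ c, w (algebraMap S B c) = IsLocalRing.residue 𝒪 (g c)) →
    ∃ a₀, (∀ b, IsLocalRing.residue 𝒪 (es a₀ b) = w b) ∧
      (∀ a, IsLocalRing.residue 𝒪 (es a y) = w y → IsLocalRing.residue 𝒪 (es a x) = w x →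
        a = a₀) ∧
      ∀ β ∈ Rt, IsLocalRing.residue 𝒪 β = w y → β = es a₀ y

theorem mem_of_int {A Ω : Type} [CommRing A] [Field Ω] (𝒪 : ValuationSubring Ω) (g : A →+* 𝒪)
    (z : Ω) (hz : (𝒪.subtype.comp g).IsIntegralElem z) : z ∈ 𝒪 := by
  obtain ⟨p, hp, hpz⟩ := hz
  have h1 : IsIntegral 𝒪 z := by
    refine ⟨p.map g, hp.map _, ?_⟩
    rw [Polynomial.eval₂_map]
    exact hpz
  obtain ⟨w, hw⟩ := IsIntegrallyClosed.algebraMap_eq_of_integral h1
  rw [← hw]
  exact w.2

/-- elements with nonzero residue are units -/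
theorem inv_mem_of_res {Ω : Type} [Field Ω] (𝒪 : ValuationSubring Ω) (z : 𝒪)
    (hz : IsLocalRing.residue 𝒪 z ≠ 0) : (z : Ω)⁻¹ ∈ 𝒪 := by
  rw [IsLocalRing.residue_ne_zero_iff_isUnit] at hz
  obtain ⟨u, hu⟩ := hz
  have h1 : (z : Ω) * ((↑u⁻¹ : 𝒪) : Ω) = 1 := by
    have h2 : z * (↑u⁻¹ : 𝒪) = 1 := by rw [← hu, Units.mul_inv]
    have h3 := congrArg (fun t : 𝒪 => (t : Ω)) h2
    exact h3
  have h4 : (z : Ω)⁻¹ = ((↑u⁻¹ : 𝒪) : Ω) := (eq_inv_of_mul_eq_one_right h1).symm
  rw [h4]
  exact (↑u⁻¹ : 𝒪).2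

section

variable {S B L K : Type} [CommRing S] [CommRing B] [Algebra S B]
  [Field L] [Field K] [Algebra S L] [Algebra B K]
  [Algebra L K] [Algebra S K] [IsScalarTower S L K] [IsScalarTower S B K]

/-- a conjugation on the base ring -/
theorem conj_base {Ω : Type} [Field Ω] [Algebra L Ω] (e : K →ₐ[L] Ω) :
    ((e : K →+* Ω).comp (algebraMap B K)).comp (algebraMap S B) =
          (algebraMap L Ω).comp (algebraMap S L) := by
  ext c
  simp only [RingHom.comp_apply, RingHom.coe_coe]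
  rw [← IsScalarTower.algebraMap_apply S B K, IsScalarTower.algebraMap_apply S L K,
    AlgHom.commutes]

/-- a conjugation of a value -/
theorem conj_aeval {Ω : Type} [Field Ω] [Algebra L Ω] (e : K →ₐ[L] Ω) (y : B) (p : S[X]) :
    eval₂ ((algebraMap L Ω).comp (algebraMap S L)) (e (algebraMap B K y)) p =
        e (algebraMap B K (aeval y p)) := by
  rw [← conj_base (B := B) e, aeval_def]
  have h4 := Polynomial.hom_eval₂ p (algebraMap S B) ((e : K →+* Ω).comp (algebraMap B K)) y
  exact h4.symm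

/-- the conjugates divide -/
theorem dvd_pow_aux [IsFractionRing S L] (y : B) (h₁ χ : S[X]) (hχ : χ.Monic)
    (hy : aeval y h₁ = 0) (Ω : Type) [Field Ω] [Algebra L Ω] (δ : ℕ) (e : Fin δ → (K →ₐ[L] Ω))
    (h : χ.map ((algebraMap L Ω).comp (algebraMap S L)) =
        ∏ a, (Polynomial.X - Polynomial.C (e a (algebraMap B K y)))) : χ ∣ h₁ ^ δ := by
  have hinj : Function.Injective ((algebraMap L Ω).comp (algebraMap S L)) :=
    (algebraMap L Ω).injective.comp (IsFractionRing.injective S L)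
  rw [← map_dvd_map _ hinj hχ, h, Polynomial.map_pow]
  have h1 : ∀ a ∈ (Finset.univ : Finset (Fin δ)),
      (X - C (e a (algebraMap B K y))) ∣ h₁.map ((algebraMap L Ω).comp (algebraMap S L)) := by
    intro a _
    rw [dvd_iff_isRoot, IsRoot.def, eval_map, conj_aeval, hy, map_zero, map_zero]
  have h5 := Finset.prod_dvd_prod_of_dvd _ _ h1
  rw [Finset.prod_const, Finset.card_univ, Fintype.card_fin] at h5
  exact h5

end

section

variable {S B L K : Type} [CommRing S] [IsIntegrallyClosed S] [CharZero S]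
  [CommRing B] [IsDomain B] [Algebra S B] [FaithfulSMul S B] [Module.Finite S B]
  [Field L] [Field K] [Algebra S L] [IsFractionRing S L] [Algebra B K] [IsFractionRing B K]
  [Algebra L K] [Algebra S K] [IsScalarTower S L K] [IsScalarTower S B K]
  [FiniteDimensional L K]

theorem cj_of (hBIJ : T_BIJ) (x y : B) (hxy : Algebra.adjoin S {x, y} = ⊤) (h₁ χ : S[X])
    (U : ℕ → S[X]) (hm : h₁.Monic) (hirr : Irreducible h₁) (hy : aeval y h₁ = 0)
    (hT : ∀ (Ω : Type) [Field Ω] [IsAlgClosed Ω] [Algebra L Ω] (e : Fin (Module.finrank L K) ≃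
      (K →ₐ[L] Ω)),
      χ.map ((algebraMap L Ω).comp (algebraMap S L)) =
        ∏ a, (Polynomial.X - Polynomial.C (e a (algebraMap B K y))) ∧
      ∀ j, (U j).map ((algebraMap L Ω).comp (algebraMap S L)) =
        ∑ a, Polynomial.C (e a (algebraMap B K x) ^ j) *
          ∏ a' ∈ Finset.univ.erase a, (Polynomial.X - Polynomial.C (e a' (algebraMap B K y))))
    (Ω : Type) [Field Ω] [IsAlgClosed Ω] (𝒪 : ValuationSubring Ω) (g : S →+* 𝒪)
    (hg : Function.Injective g) :
    ∃ (es : Fin (Module.finrank L K) → (B →+* 𝒪)) (Rt : Finset 𝒪),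
      Cj x y h₁ χ U 𝒪 g (Module.finrank L K) es Rt := by
  classical
  have hg' : Function.Injective (𝒪.subtype.comp g) := Subtype.val_injective.comp hg
  let _ : Algebra L Ω := (IsFractionRing.lift (K := L) hg').toAlgebra
  have hLS : (algebraMap L Ω).comp (algebraMap S L) = 𝒪.subtype.comp g := by
    ext c
    exact IsFractionRing.lift_algebraMap hg' c
  have hchL : CharZero L := charZero_of_injective_algebraMap (IsFractionRing.injective S L)
  have hcard : Fintype.card (K →ₐ[L] Ω) = Module.finrank L K := AlgHom.card L K Ω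
  let e : Fin (Module.finrank L K) ≃ (K →ₐ[L] Ω) := (Fintype.equivFinOfCardEq hcard).symm
  have hconj : ∀ (a : Fin (Module.finrank L K)) (b : B) (p : S[X]),
      eval₂ (𝒪.subtype.comp g) (e a (algebraMap B K b)) p = e a (algebraMap B K (aeval b p)) := by
    intro a b p
    rw [← hLS]
    exact conj_aeval (e a) b p
  have hint : ∀ (σ : K →ₐ[L] Ω) (b : B), σ (algebraMap B K b) ∈ 𝒪 := by
    intro σ b
    apply mem_of_int 𝒪 g
    obtain ⟨p, hp, hpb⟩ := (Algebra.IsIntegral.isIntegral (R := S) b)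
    refine ⟨p, hp, ?_⟩
    have h1 := conj_aeval (S := S) σ b p
    rw [hLS] at h1
    rw [h1]
    have h2 : aeval b p = 0 := hpb
    rw [h2, map_zero, map_zero]
  let es : Fin (Module.finrank L K) → (B →+* 𝒪) := fun a =>
    ((e a : K →+* Ω).comp (algebraMap B K)).codRestrict 𝒪 (hint (e a))
  have hes : ∀ a b, ((es a b : 𝒪) : Ω) = e a (algebraMap B K b) := fun a b => rfl
  have hbas : ∀ a c, es a (algebraMap S B c) = g c := by
    intro a c
    apply Subtype.ext
    rw [hes]
    have h1 := congrArg (fun f : S →+* Ω => f c) (conj_base (S := S) (B := B) (e a))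
    have h2 := congrArg (fun f : S →+* Ω => f c) hLS
    exact h1.trans h2
  -- the polynomial `h₁`
  have hirrL : Irreducible (h₁.map (algebraMap S L)) :=
    (hm.irreducible_iff_irreducible_map_fraction_map (K := L)).1 hirr
  have hsepL : (h₁.map (algebraMap S L)).Separable := hirrL.separable
  have hsep : (h₁.map (𝒪.subtype.comp g)).Separable := by
    rw [← hLS, ← Polynomial.map_map]
    exact hsepL.map
  have hmO : (h₁.map (𝒪.subtype.comp g)).Monic := hm.map _
  have hspl := (IsAlgClosed.splits (h₁.map (𝒪.subtype.comp g))).eq_prod_roots_of_monic hmO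
  have hR : ∀ β ∈ (h₁.map (𝒪.subtype.comp g)).roots.toFinset, β ∈ 𝒪 := by
    intro β hβ
    rw [Multiset.mem_toFinset, mem_roots hmO.ne_zero, IsRoot.def, eval_map] at hβ
    exact mem_of_int 𝒪 g β ⟨h₁, hm, hβ⟩
  have hRprod : h₁.map (𝒪.subtype.comp g) =
      ∏ β ∈ (h₁.map (𝒪.subtype.comp g)).roots.toFinset, (X - C β) := by
    have hnd : (h₁.map (𝒪.subtype.comp g)).roots.Nodup := nodup_roots hsep
    have h1 : (h₁.map (𝒪.subtype.comp g)).roots.toFinset.val =
        (h₁.map (𝒪.subtype.comp g)).roots := by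
      rw [Multiset.toFinset_val, hnd.dedup]
    rw [Finset.prod, h1]
    exact hspl
  let Rt : Finset 𝒪 := (h₁.map (𝒪.subtype.comp g)).roots.toFinset.subtype (fun z => z ∈ 𝒪)
  have hrt : h₁.map g = ∏ β ∈ Rt, (X - C β) := by
    apply Polynomial.map_injective 𝒪.subtype Subtype.val_injective
    rw [Polynomial.map_map, Polynomial.map_prod, hRprod]
    rw [← Finset.prod_subtype_of_mem (fun z : Ω => (X - C z : Polynomial Ω)) hR]
    refine Finset.prod_congr rfl (fun β _ => ?_)
    rw [Polynomial.map_sub, Polynomial.map_X, Polynomial.map_C]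
    rfl
  have hrho : ∀ a, es a y ∈ Rt := by
    intro a
    rw [Finset.mem_subtype, Multiset.mem_toFinset, mem_roots hmO.ne_zero, IsRoot.def, eval_map,
      hes, hconj, hy, map_zero, map_zero]
  refine ⟨es, Rt, hbas, ?_, ?_, hrt, hrho, ?_⟩
  · apply Polynomial.map_injective 𝒪.subtype Subtype.val_injective
    rw [Polynomial.map_map, Polynomial.map_prod, ← hLS, (hT Ω e).1]
    refine Finset.prod_congr rfl (fun β _ => ?_)
    rw [Polynomial.map_sub, Polynomial.map_X, Polynomial.map_C]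
    rfl
  · intro j
    apply Polynomial.map_injective 𝒪.subtype Subtype.val_injective
    rw [Polynomial.map_map, ← hLS, (hT Ω e).2 j, Polynomial.map_sum]
    refine Finset.sum_congr rfl (fun a _ => ?_)
    rw [Polynomial.map_mul, Polynomial.map_prod, Polynomial.map_C]
    refine congrArg₂ (fun p q : Polynomial Ω => p * q) rfl
      (Finset.prod_congr rfl (fun β _ => ?_))
    rw [Polynomial.map_sub, Polynomial.map_X, Polynomial.map_C]
    rfl
  -- reduction
  intro w hw hwS
  have hres0 : ∀ b : S, b ≠ 0 → IsLocalRing.residue 𝒪 (g b) ≠ 0 := by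
    intro b hb
    rw [← hwS]
    intro h0
    have h1 : algebraMap S B b = 0 := hw (by rw [h0, map_zero])
    exact hb ((FaithfulSMul.algebraMap_eq_zero_iff S B).1 h1)
  have hL : ∀ z : L, algebraMap L Ω z ∈ 𝒪 := by
    intro z
    obtain ⟨a, b, hb, rfl⟩ := IsFractionRing.div_surjective (A := S) z
    have h1 : ∀ c : S, algebraMap L Ω (algebraMap S L c) = g c := fun c =>
      congrArg (fun f : S →+* Ω => f c) hLS
    rw [map_div₀, h1, h1, div_eq_mul_inv]
    exact 𝒪.mul_mem _ _ (g a).2 (inv_mem_of_res 𝒪 (g b) (hres0 b (nonZeroDivisors.ne_zero hb)))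
  let ϖ : K →+* IsLocalRing.ResidueField 𝒪 := IsFractionRing.lift (K := K) hw
  have hϖ : ∀ b : B, ϖ (algebraMap B K b) = w b := fun b => IsFractionRing.lift_algebraMap hw b
  let red : L →+* IsLocalRing.ResidueField 𝒪 :=
    (IsLocalRing.residue 𝒪).comp ((algebraMap L Ω).codRestrict 𝒪 hL)
  have hredg : red.comp (algebraMap S L) = (IsLocalRing.residue 𝒪).comp g := by
    ext c
    change IsLocalRing.residue 𝒪 _ = IsLocalRing.residue 𝒪 _
    congr 1
    apply Subtype.ext
    exact congrArg (fun f : S →+* Ω => f c) hLS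
  have hcompat : ϖ.comp (algebraMap L K) = red := by
    apply IsLocalization.ringHom_ext (nonZeroDivisors S)
    rw [hredg]
    ext c
    change ϖ (algebraMap L K (algebraMap S L c)) = IsLocalRing.residue 𝒪 (g c)
    rw [← IsScalarTower.algebraMap_apply S L K, IsScalarTower.algebraMap_apply S B K, hϖ, hwS]
  obtain ⟨σ, hσ, hres, huniq⟩ := hBIJ L K Ω 𝒪 hL ϖ (fun z =>
    congrArg (fun f : L →+* IsLocalRing.ResidueField 𝒪 => f z) hcompat)
  have hσ0 : ∀ b, IsLocalRing.residue 𝒪 (es (e.symm σ) b) = w b := by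
    intro b
    have h1 := hres (algebraMap B K b)
    rw [hϖ] at h1
    rw [← h1]
    congr 1
    apply Subtype.ext
    rw [hes, Equiv.apply_symm_apply]
  refine ⟨e.symm σ, hσ0, ?_, ?_⟩
  · intro a hay hax
    have hB : ∀ b : B, IsLocalRing.residue 𝒪 (es a b) = w b := by
      intro b
      have hb : b ∈ Algebra.adjoin S {x, y} := by rw [hxy]; trivial
      induction hb using Algebra.adjoin_induction with
      | mem b hb =>
        rcases hb with hb | hb
        · rw [hb]; exact hax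
        · rw [hb]; exact hay
      | algebraMap c => rw [hbas, hwS]
      | add b b' _ _ h1 h2 => rw [map_add, map_add, map_add, h1, h2]
      | mul b b' _ _ h1 h2 => rw [map_mul, map_mul, map_mul, h1, h2]
    rw [Equiv.eq_symm_apply]
    apply huniq
    intro z
    obtain ⟨b₁, b₂, hb₂, rfl⟩ := IsFractionRing.div_surjective (A := B) z
    have hb0 : b₂ ≠ 0 := nonZeroDivisors.ne_zero hb₂
    have hw0 : w b₂ ≠ 0 := by
      intro h0
      exact hb0 (hw (by rw [h0, map_zero]))
    have h1 : ((es a b₂ : 𝒪) : Ω)⁻¹ ∈ 𝒪 := inv_mem_of_res 𝒪 _ (by rw [hB]; exact hw0)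
    have h2 : ((es a b₂ : 𝒪) : Ω) ≠ 0 := by
      intro h0
      have h3 : es a b₂ = 0 := Subtype.ext h0
      have h4 := hB b₂
      rw [h3, map_zero] at h4
      exact hw0 h4.symm
    have h3 : es a b₂ * ⟨((es a b₂ : 𝒪) : Ω)⁻¹, h1⟩ = 1 := by
      apply Subtype.ext
      exact mul_inv_cancel₀ h2
    have h4 : w b₂ * IsLocalRing.residue 𝒪 ⟨((es a b₂ : 𝒪) : Ω)⁻¹, h1⟩ = 1 := by
      rw [← hB, ← map_mul, h3, map_one]
    have h5 : (e a) (algebraMap B K b₁ / algebraMap B K b₂) =
        ((es a b₁ * ⟨((es a b₂ : 𝒪) : Ω)⁻¹, h1⟩ : 𝒪) : Ω) := by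
      rw [map_div₀, div_eq_mul_inv]
      rfl
    have h6 : IsLocalRing.residue 𝒪 (es a b₁ * ⟨((es a b₂ : 𝒪) : Ω)⁻¹, h1⟩ -
        ⟨σ (algebraMap B K b₁ / algebraMap B K b₂), hσ _⟩) = 0 := by
      rw [map_sub, map_mul, hres, hB, map_div₀, hϖ, hϖ, sub_eq_zero,
        eq_div_iff hw0, mul_assoc, mul_comm _ (w b₂), h4, mul_one]
    rw [IsLocalRing.residue_eq_zero_iff, ValuationSubring.valuation_lt_one_iff] at h6
    rw [h5]
    exact h6
  · intro β hβ hβy
    have h1 : ((h₁.map (algebraMap S L)).map red).Separable := hsepL.map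
    have h2 : (h₁.map (algebraMap S L)).map red =
        ∏ β ∈ Rt, (X - C (IsLocalRing.residue 𝒪 β)) := by
      rw [Polynomial.map_map, hredg, ← Polynomial.map_map, hrt, Polynomial.map_prod]
      refine Finset.prod_congr rfl (fun β _ => ?_)
      rw [Polynomial.map_sub, Polynomial.map_X, Polynomial.map_C]
    rw [h2, separable_prod_X_sub_C_iff'] at h1
    exact h1 β hβ _ (hrho _) (by rw [hβy, hσ0])

end

theorem core (hBIJ : T_BIJ) (hTRA : T_TRA) (S B : Type) [CommRing S] [IsDomain S]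
    [IsIntegrallyClosed S] [CharZero S] [CommRing B] [IsDomain B] [Algebra S B] [FaithfulSMul S B]
    [Module.Finite S B] (x y : B) (hxy : Algebra.adjoin S {x, y} = ⊤) (h₁ : S[X])
    (hm : h₁.Monic) (hirr : Irreducible h₁) (hy : aeval y h₁ = 0) :
    ∃ (δ : ℕ) (χ : S[X]) (U : ℕ → S[X]), χ.Monic ∧ χ.natDegree = δ ∧ 1 ≤ δ ∧ χ ∣ h₁ ^ δ ∧
      ∀ (Ω : Type) [Field Ω] [IsAlgClosed Ω] (𝒪 : ValuationSubring Ω) (g : S →+* 𝒪),
        Function.Injective g → ∃ (es : Fin δ → (B →+* 𝒪)) (Rt : Finset 𝒪),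
          Cj x y h₁ χ U 𝒪 g δ es Rt := by
  let L := FractionRing S
  let K := FractionRing B
  have hfK : FaithfulSMul S K := by
    rw [faithfulSMul_iff_algebraMap_injective, IsScalarTower.algebraMap_eq S B K]
    exact (IsFractionRing.injective B K).comp (FaithfulSMul.algebraMap_injective S B)
  let _ : Algebra L K := FractionRing.liftAlgebra S K
  have _ : IsScalarTower S L K := FractionRing.isScalarTower_liftAlgebra S K
  have _ : FiniteDimensional L K := Module.Finite.of_isLocalization S B (nonZeroDivisors S)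
  have hx' : IsIntegral S (algebraMap B K x) :=
    (Algebra.IsIntegral.isIntegral (R := S) x).algebraMap
  have hy' : IsIntegral S (algebraMap B K y) :=
    (Algebra.IsIntegral.isIntegral (R := S) y).algebraMap
  obtain ⟨χ, U, hχ, hχd, hT⟩ := hTRA S L K (algebraMap B K x) (algebraMap B K y) hx' hy'
  refine ⟨Module.finrank L K, χ, U, hχ, hχd, Module.finrank_pos, ?_, ?_⟩
  · have hchL : CharZero L := charZero_of_injective_algebraMap (IsFractionRing.injective S L)
    have hcard : Fintype.card (K →ₐ[L] AlgebraicClosure L) = Module.finrank L K :=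
      AlgHom.card L K (AlgebraicClosure L)
    let e : Fin (Module.finrank L K) ≃ (K →ₐ[L] AlgebraicClosure L) :=
      (Fintype.equivFinOfCardEq hcard).symm
    exact dvd_pow_aux y h₁ χ hχ hy (AlgebraicClosure L) _ e (hT (AlgebraicClosure L) e).1
  · intro Ω _ _ 𝒪 g hg
    exact cj_of (L := L) (K := K) hBIJ x y hxy h₁ χ U hm hirr hy hT Ω 𝒪 g hg

end Pool.Agent.H11.VZ
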