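import Pool.Agent.H11.VZ.TRDa

/-!
# Non-fibered rational self-maps of arbitrary varieties: conjugates, one variable singled out
-/

set_option autoImplicit false

open MvPolynomial
open Pool.Agent.H18.HIT Pool.Agent.H18.HX Pool.Agent.H18.VZ

namespace Pool.Agent.H11.VZ

section

variable {N : ℕ} (i : Fin N) (k : Type) [Field k]

/-- polynomials in the variables different from `X i` -/
abbrev Sv : Type := MvPolynomial {l : Fin N // l ≠ i} k

/-- singling out the variable `X i` -/
noncomputable def Ev : Po N k ≃ₐ[k] Polynomial (Sv i k) :=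
  (renameEquiv k (Equiv.optionSubtypeNe i).symm).trans (optionEquivLeft k {l : Fin N // l ≠ i})

theorem Ev_C (c : k) : Ev i k (C c) = Polynomial.C (C c) := by
  unfold Ev
  rw [AlgEquiv.trans_apply, renameEquiv_apply, rename_C, optionEquivLeft_C]

theorem Ev_X_self : Ev i k (X i) = Polynomial.X := by
  unfold Ev
  rw [AlgEquiv.trans_apply, renameEquiv_apply, rename_X, Equiv.optionSubtypeNe_symm_self,
    optionEquivLeft_X_none]

theorem Ev_X_ne (l : Fin N) (h : l ≠ i) : Ev i k (X l) = Polynomial.C (X ⟨l, h⟩) := by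
  unfold Ev
  rw [AlgEquiv.trans_apply, renameEquiv_apply, rename_X, Equiv.optionSubtypeNe_symm_of_ne h,
    optionEquivLeft_X_some]

/-- the polynomials without `X i` -/
noncomputable def jv : Sv i k →ₐ[k] Po (N + 1) k := rename (fun l => Fin.succ l.1)

variable {k}

theorem up_Ev (p : Po N k) : (Ev i k p).eval₂ (jv i k : Sv i k →+* Po (N + 1) k) (X i.succ) =
    up p := by
  unfold up
  induction p using MvPolynomial.induction_on with
  | C c =>
    rw [Ev_C, Polynomial.eval₂_C, rename_C, RingHom.coe_coe, jv, rename_C]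
  | add p q hp hq => rw [map_add, Polynomial.eval₂_add, hp, hq, map_add]
  | mul_X p l hp =>
    rw [map_mul, Polynomial.eval₂_mul, hp, map_mul, rename_X]
    congr 1
    by_cases h : l = i
    · rw [h, Ev_X_self, Polynomial.eval₂_X]
    · rw [Ev_X_ne i k l h, Polynomial.eval₂_C, RingHom.coe_coe, jv, rename_X]

theorem up_Ev' {R : Type} [CommRing R] (θ : Po (N + 1) k →+* R) (p : Po N k) :
    θ (up p) = (Ev i k p).eval₂ (θ.comp (jv i k : Sv i k →+* Po (N + 1) k)) (θ (X i.succ)) := by
  rw [← up_Ev i p, Polynomial.hom_eval₂]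

theorem jv_eq (c : Sv i k) : jv i k c = up ((Ev i k).symm (Polynomial.C c)) := by
  rw [← up_Ev i, AlgEquiv.apply_symm_apply, Polynomial.eval₂_C]
  rfl

theorem Ev_pderiv (p : Po N k) :
    Ev i k (pderiv i p) = Polynomial.derivative (Ev i k p) := by
  induction p using MvPolynomial.induction_on with
  | C c => rw [pderiv_C, map_zero, Ev_C, Polynomial.derivative_C]
  | add p q hp hq => rw [map_add, map_add, hp, hq, map_add, Polynomial.derivative_add]
  | mul_X p l hp =>
    rw [pderiv_mul, map_add, map_mul, map_mul, hp, map_mul, Polynomial.derivative_mul]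
    congr 2
    by_cases h : l = i
    · rw [h, pderiv_X_self, map_one, Ev_X_self, Polynomial.derivative_X]
    · rw [pderiv_X_of_ne (fun h' => h h'), map_zero, Ev_X_ne i k l h, Polynomial.derivative_C]

theorem Ev_pderiv_iter (p : Po N k) (j : ℕ) :
    Ev i k ((pderiv i)^[j] p) = Polynomial.derivative^[j] (Ev i k p) := by
  induction j with
  | zero => rfl
  | succ j ih => rw [Function.iterate_succ_apply', Function.iterate_succ_apply', Ev_pderiv, ih]

theorem coeff_Ev (p : Po N k) (dh : ℕ) (hp : p.IsHomogeneous dh) (m : ℕ)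
    (d : {l : Fin N // l ≠ i} →₀ ℕ) (h : coeff d ((Ev i k p).coeff m) ≠ 0) :
    m + d.degree = dh := by
  unfold Ev at h
  rw [AlgEquiv.trans_apply, renameEquiv_apply, optionEquivLeft_coeff_coeff] at h
  have h1 : (rename (Equiv.optionSubtypeNe i).symm p).IsHomogeneous dh :=
    hp.rename_isHomogeneous
  have h2 := h1 h
  have h3 : (d.optionElim m).degree = dh := by
    rw [Finsupp.degree_eq_weight_one]
    exact h2
  rw [← h3, Finsupp.degree_eq_sum, Finsupp.degree_eq_sum, Fintype.sum_option,
    Finsupp.optionElim_apply_none]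
  simp only [Finsupp.optionElim_apply_some]

theorem coeff_top (p : Po N k) (dh : ℕ) (hp : p.IsHomogeneous dh) :
    (∀ m, dh < m → (Ev i k p).coeff m = 0) ∧
      (Ev i k p).coeff dh = C (eval (Pi.single i 1) p) := by
  classical
  have h1 : ∀ m, dh < m → (Ev i k p).coeff m = 0 := by
    intro m hm
    ext d
    by_contra h
    rw [coeff_zero] at h
    have := coeff_Ev i p dh hp m d h
    omega
  refine ⟨h1, ?_⟩
  have h2 : (Ev i k p).coeff dh = C (coeff 0 ((Ev i k p).coeff dh)) := by
    ext d
    rw [coeff_C]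
    by_cases hd : 0 = d
    · rw [if_pos hd, ← hd]
    · rw [if_neg hd]
      by_contra h
      have h3 := coeff_Ev i p dh hp dh d h
      have h4 : d.degree = 0 := by omega
      rw [Finsupp.degree_eq_zero_iff] at h4
      exact hd h4.symm
  have h5 : eval (Pi.single i 1) p = coeff 0 ((Ev i k p).coeff dh) := by
    have h6 := optionEquivLeft_elim_eval k {l : Fin N // l ≠ i} (fun _ => 0) 1
      (rename (Equiv.optionSubtypeNe i).symm p)
    rw [eval_rename] at h6
    have h7 : (fun x : Option {l : Fin N // l ≠ i} => Option.elim x (1 : k) (fun _ => 0)) ∘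
        (Equiv.optionSubtypeNe i).symm = Pi.single i 1 := by
      funext l
      rw [Function.comp_apply]
      by_cases hl : l = i
      · rw [hl, Equiv.optionSubtypeNe_symm_self, Pi.single_eq_same]
        rfl
      · rw [Equiv.optionSubtypeNe_symm_of_ne hl, Pi.single_eq_of_ne hl]
        rfl
    rw [h7] at h6
    rw [h6]
    change Polynomial.eval 1 (Polynomial.map (eval fun _ => 0) (Ev i k p)) = _
    have h8 : (Ev i k p).natDegree ≤ dh := by
      rw [Polynomial.natDegree_le_iff_coeff_eq_zero]
      exact h1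
    have h9 : (Polynomial.map (eval fun _ => (0 : k)) (Ev i k p)).natDegree < dh + 1 :=
      lt_of_le_of_lt (Polynomial.natDegree_map_le.trans h8) (Nat.lt_succ_self _)
    rw [Polynomial.eval_eq_sum_range' h9, Finset.sum_range_succ, Finset.sum_eq_zero, zero_add,
      one_pow, mul_one, Polynomial.coeff_map, eval_zero', constantCoeff_eq]
    intro m hm
    rw [Finset.mem_range] at hm
    rw [Polynomial.coeff_map, eval_zero', constantCoeff_eq]
    have h10 : coeff 0 ((Ev i k p).coeff m) = 0 := by
      by_contra h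
      have h11 := coeff_Ev i p dh hp m 0 h
      rw [map_zero] at h11
      omega
    rw [h10, zero_mul]
  rw [h5]
  exact h2

theorem hom_of_Hmi (P : Po (N + 1) k) (H : Ideal (Po (N + 1) k)) (h : Po N k)
    (hP : Pdv P H h) (hH : Hmi H) : ∃ dh, 1 ≤ dh ∧ h.IsHomogeneous dh := by
  have hne : h ≠ 0 := hP.irr.ne_zero
  have h1 : ∃ t, homogeneousComponent t h ≠ 0 := by
    by_contra hcon
    push Not at hcon
    apply hne
    rw [← sum_homogeneousComponent h]
    exact Finset.sum_eq_zero (fun t _ => hcon t)
  obtain ⟨t, ht⟩ := h1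
  have h2 : h ∣ homogeneousComponent t h := by
    rw [← hP.iff]
    have h3 := hH (up h) ((hP.iff h).2 dvd_rfl) t
    unfold up at h3 ⊢
    rw [rename_homogeneousComponent]
    exact h3
  obtain ⟨q, hq⟩ := h2
  have hq0 : q ≠ 0 := by
    intro h0
    rw [h0, mul_zero] at hq
    exact ht hq
  have hth : (homogeneousComponent t h).IsHomogeneous t := homogeneousComponent_isHomogeneous t h
  have h4 : (homogeneousComponent t h).totalDegree = t := hth.totalDegree ht
  have h5 : (h * q).totalDegree = h.totalDegree + q.totalDegree :=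
    totalDegree_mul_of_isDomain hne hq0
  have h6 : t ≤ h.totalDegree := by
    by_contra hlt
    exact ht (homogeneousComponent_eq_zero t h (by omega))
  rw [← hq, h4] at h5
  have h7 : q.totalDegree = 0 := by omega
  rw [totalDegree_eq_zero_iff_eq_C] at h7
  have hc : coeff 0 q ≠ 0 := by
    intro h0
    rw [h0, C_0] at h7
    exact hq0 h7
  have h8 : h = C (coeff 0 q)⁻¹ * homogeneousComponent t h := by
    rw [hq]
    conv_rhs => rw [h7]
    rw [mul_comm h, ← mul_assoc, ← C_mul, coeff_C, if_pos rfl, inv_mul_cancel₀ hc, C_1, one_mul]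
  have h9 : h.IsHomogeneous t := by
    rw [h8]
    have h10 := (isHomogeneous_C (Fin N) (coeff 0 q)⁻¹).mul hth
    rw [zero_add] at h10
    exact h10
  refine ⟨t, ?_, h9⟩
  by_contra h0
  have ht0 : t = 0 := by omega
  have h10 : h.totalDegree = 0 := by rw [h9.totalDegree hne, ht0]
  rw [totalDegree_eq_zero_iff_eq_C] at h10
  apply hP.irr.not_isUnit
  rw [h10]
  apply IsUnit.map
  rw [isUnit_iff_ne_zero]
  intro h11
  rw [h11, C_0] at h10
  exact hne h10

end

end Pool.Agent.H11.VZ
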